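import Pool.Agent.N805.VP.Stm3
import Pool.Agent.N618.VP.OSL

set_option autoImplicit false

/-!
# Project VP: from all small `z` to one moment, opposite inequality
-/

namespace Pool.Agent.N286.VP
open Filter Topology Set MeasureTheory

/-- the tail of the series, lower bound -/
theorem tail_bound2 (g : ℕ → ℝ) (v z : ℝ) (m : ℕ) (h0 : g 0 = 1)
    (hg : ∀ k, 0 ≤ g k ∧ g k ≤ v ^ k) (hv : 0 ≤ v) (hz : 0 < z) (hz1 : z ≤ 1) :
    ∑ k ∈ Finset.range m, (-z) ^ (k + 1) / ((k + 1).factorial : ℝ) * g (k + 1) -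
        z ^ (m + 1) * Real.exp v ≤ (∑' k : ℕ, (-z) ^ k / (k.factorial : ℝ) * g k) - 1 := by
  have hb : ∀ k : ℕ, ‖(-z) ^ k / (k.factorial : ℝ) * g k‖ ≤ z ^ k * (v ^ k / (k.factorial : ℝ)) := by
    intro k
    rw [norm_mul, norm_div, norm_pow, norm_neg, Real.norm_of_nonneg hz.le,
      Real.norm_of_nonneg (hg k).1, Real.norm_of_nonneg (by positivity)]
    have h1 : z ^ k / (k.factorial : ℝ) * g k ≤ z ^ k / (k.factorial : ℝ) * v ^ k :=
      mul_le_mul_of_nonneg_left (hg k).2 (by positivity)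
    refine h1.trans (le_of_eq (by ring))
  have hse : Summable fun k : ℕ => v ^ k / (k.factorial : ℝ) := Real.summable_pow_div_factorial v
  have hs : Summable fun k : ℕ => (-z) ^ k / (k.factorial : ℝ) * g k := by
    refine Summable.of_norm_bounded hse fun k => (hb k).trans ?_
    have : z ^ k ≤ 1 := pow_le_one₀ hz.le hz1
    calc z ^ k * (v ^ k / (k.factorial : ℝ)) ≤ 1 * (v ^ k / (k.factorial : ℝ)) :=
          mul_le_mul_of_nonneg_right this (by positivity)
      _ = _ := one_mul _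
  have h1 := hs.sum_add_tsum_nat_add (m + 1)
  rw [Finset.sum_range_succ'] at h1
  simp only [pow_zero, Nat.factorial_zero, Nat.cast_one, div_one, one_mul, h0] at h1
  have h2 : -(z ^ (m + 1) * Real.exp v) ≤
      ∑' i : ℕ, (-z) ^ (i + (m + 1)) / ((i + (m + 1)).factorial : ℝ) * g (i + (m + 1)) := by
    have hse2 : Summable fun i : ℕ => v ^ (i + (m + 1)) / ((i + (m + 1)).factorial : ℝ) :=
      (summable_nat_add_iff (m + 1)).2 hse
    have h3 : ∀ i : ℕ, -(z ^ (m + 1) * (v ^ (i + (m + 1)) / ((i + (m + 1)).factorial : ℝ))) ≤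
        (-z) ^ (i + (m + 1)) / ((i + (m + 1)).factorial : ℝ) * g (i + (m + 1)) := by
      intro i
      have h4 : ‖(-z) ^ (i + (m + 1)) / ((i + (m + 1)).factorial : ℝ) * g (i + (m + 1))‖ ≤
          z ^ (m + 1) * (v ^ (i + (m + 1)) / ((i + (m + 1)).factorial : ℝ)) := by
        refine (hb _).trans ?_
        refine mul_le_mul_of_nonneg_right ?_ (by positivity)
        exact pow_le_pow_of_le_one hz.le hz1 (by omega)
      rw [Real.norm_eq_abs] at h4
      exact (abs_le.1 h4).1
    have hs2 : Summable fun i : ℕ => (-z) ^ (i + (m + 1)) / ((i + (m + 1)).factorial : ℝ) *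
      g (i + (m + 1)) := (summable_nat_add_iff (m + 1)).2 hs
    refine le_trans ?_ (((hse2.mul_left (z ^ (m + 1))).neg).tsum_le_tsum h3 hs2)
    rw [tsum_neg, tsum_mul_left]
    refine neg_le_neg (mul_le_mul_of_nonneg_left ?_ (by positivity))
    rw [Real.exp_eq_exp_ℝ, NormedSpace.exp_eq_tsum_div]
    have h4 := hse.sum_add_tsum_nat_add (m + 1)
    have h5 : 0 ≤ ∑ i ∈ Finset.range (m + 1), v ^ i / (i.factorial : ℝ) :=
      Finset.sum_nonneg fun i _ => by positivity
    linarith
  linarith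

theorem OSL2 : Pool.Agent.N805.VP.S_OSL2 := by
  intro l a F g v m hm h0 hg ha hlim hC hlow hup
  have hv : 0 ≤ v := by
    have := hg 1
    rw [pow_one] at this
    exact this.1.trans this.2
  obtain ⟨n, rfl⟩ : ∃ n, m = n + 1 := ⟨m - 1, by omega⟩
  obtain ⟨C, hC⟩ := hC
  -- the sum of the lower terms tends to zero
  have hS : ∀ z : ℝ, Tendsto (fun T => -∑ k ∈ Finset.range n,
      (-z) ^ (k + 1) / ((k + 1).factorial : ℝ) * (g (k + 1) - a (k + 1) T)) l (𝓝 0) := by
    intro z
    have : Tendsto (fun T => -∑ k ∈ Finset.range n,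
      (-z) ^ (k + 1) / ((k + 1).factorial : ℝ) * (g (k + 1) - a (k + 1) T)) l
        (𝓝 (-∑ k ∈ Finset.range n, (-z) ^ (k + 1) / ((k + 1).factorial : ℝ) *
          (g (k + 1) - g (k + 1)))) := by
      refine (tendsto_finsetSum _ fun k hk => ?_).neg
      refine Tendsto.const_mul _ (tendsto_const_nhds.sub (hlim (k + 1) (by omega) ?_))
      have := Finset.mem_range.1 hk
      omega
    simpa using this
  have hS' : ∀ z ε : ℝ, 0 < ε → ∀ᶠ T in l, -∑ k ∈ Finset.range n,
      (-z) ^ (k + 1) / ((k + 1).factorial : ℝ) * (g (k + 1) - a (k + 1) T) ≤ ε := by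
    intro z ε hε
    filter_upwards [(hS z).eventually_lt_const hε] with T hT
    exact hT.le
  constructor
  · intro hodd η hη
    have hev : Even (n + 2) := by
      rcases hodd with ⟨c, hc⟩
      exact ⟨c + 1, by omega⟩
    obtain ⟨z, ε, hz, hz1, hε, hch⟩ := Pool.Agent.N618.VP.choice (n + 1) (Real.exp v + max C 0) η
      (by have := Real.exp_pos v; have := le_max_right C 0; linarith) hη
    filter_upwards [hC, hS' z ε hε, hlow z hz hz1 ε hε, hup z hz hz1 (n + 2) hev]
      with T t1 t2 t3 t4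
    have t5 := tail_bound2 g v z (n + 1) h0 hg hv hz hz1
    have t6 := hch (a (n + 1) T - g (n + 1)) _ t2 (by
      rw [Finset.sum_range_succ, Finset.sum_range_succ] at t4
      rw [Finset.sum_range_succ] at t5
      have e1 : (-z) ^ (n + 1) = -z ^ (n + 1) := Odd.neg_pow hodd z
      have e2 : (-z) ^ (n + 1 + 1) = z ^ (n + 1 + 1) := Even.neg_pow hev z
      rw [e1] at t4 t5
      rw [e2] at t4
      simp only [mul_sub, Finset.sum_sub_distrib]
      have t7 : z ^ (n + 1 + 1) / ((n + 1 + 1).factorial : ℝ) * a (n + 1 + 1) T ≤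
          z ^ (n + 1 + 1) * max C 0 := by
        have f1 : (1 : ℝ) ≤ ((n + 1 + 1).factorial : ℝ) := by
          exact_mod_cast Nat.one_le_iff_ne_zero.2 (Nat.factorial_ne_zero _)
        have f2 : z ^ (n + 1 + 1) / ((n + 1 + 1).factorial : ℝ) ≤ z ^ (n + 1 + 1) :=
          div_le_self (by positivity) f1
        exact mul_le_mul f2 (t1.trans (le_max_left _ _)) (ha _ _) (by positivity)
      have e3 : ∀ y : ℝ, -z ^ (n + 1) / ((n + 1).factorial : ℝ) * y =
        -(z ^ (n + 1) / ((n + 1).factorial : ℝ) * y) := fun y => by ring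
      rw [e3] at t4 t5
      have e4 : z ^ (n + 1 + 1) * (Real.exp v + max C 0) =
        z ^ (n + 1 + 1) * Real.exp v + z ^ (n + 1 + 1) * max C 0 := by ring
      rw [e4]
      linarith)
    linarith
  · intro hev η hη
    obtain ⟨z, ε, hz, hz1, hε, hch⟩ := Pool.Agent.N618.VP.choice (n + 1) (Real.exp v) η
      (Real.exp_pos v) hη
    filter_upwards [hS' z ε hε, hlow z hz hz1 ε hε, hup z hz hz1 (n + 1) hev]
      with T t2 t3 t4
    have t5 := tail_bound2 g v z (n + 1) h0 hg hv hz hz1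
    have t6 := hch (g (n + 1) - a (n + 1) T) _ t2 (by
      rw [Finset.sum_range_succ] at t4 t5
      have e2 : (-z) ^ (n + 1) = z ^ (n + 1) := Even.neg_pow hev z
      rw [e2] at t4 t5
      simp only [mul_sub, Finset.sum_sub_distrib]
      linarith)
    linarith

end Pool.Agent.N286.VP
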